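import Pool.Agent.H820.T6.Stm

set_option autoImplicit false

/-! # T6 BLOCK: one block in the `j`-th chart -/

namespace Pool.Agent.H672.T6

open Matrix Complex ComplexConjugate Pool.Agent.H820.T6

theorem t_block : S_alg → S_block := by
  rintro ⟨_, _, _, h4, _, h6, h7⟩ s h j z hj
  have hs : s z ≠ 0 := by
    intro h0
    apply hj
    rw [h0]
    rfl
  have split : ∀ u : C4, s z ⬝ᵥ u =
      s z j * u j + ∑ k : Fin 3, s z (j.succAbove k) * u (j.succAbove k) := by
    intro u
    unfold dotProduct
    rw [Fin.sum_univ_succAbove _ j]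
  have hfull1 : ∀ v : Z3, full s h j z v j =
      (s z ⬝ᵥ h z - ∑ k, s z (j.succAbove k) * v k) / s z j := by
    intro v
    unfold full
    rw [Fin.insertNth_apply_same]
  have hfull2 : ∀ (v : Z3) (k : Fin 3), full s h j z v (j.succAbove k) = v k := by
    intro v k
    unfold full
    rw [Fin.insertNth_apply_succAbove]
  have hext : ∀ u v : C4, u j = v j → (∀ k : Fin 3, u (j.succAbove k) = v (j.succAbove k)) →
      u = v := by
    intro u v h1 h2
    funext i
    rcases Fin.eq_self_or_eq_succAbove j i with hi | ⟨k, hk⟩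
    · rw [hi]
      exact h1
    · rw [hk]
      exact h2 k
  have p3 : ∀ x, full s h j z (fw s h j z x) = X x *ᵥ s z + h z := by
    intro x
    apply hext
    · rw [hfull1]
      have h5 : s z ⬝ᵥ (X x *ᵥ s z + h z) = s z ⬝ᵥ h z := by
        rw [dotProduct_add, h4, zero_add]
      rw [split (X x *ᵥ s z + h z)] at h5
      rw [← h5, div_eq_iff hj]
      unfold fw
      ring
    · intro k
      rw [hfull2]
      rfl
  have p4 : ∀ v, X (bw s h j z v) *ᵥ s z + h z = full s h j z v := by
    intro v
    have h5 : s z ⬝ᵥ (full s h j z v - h z) = 0 := by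
      have h9 : ∑ k : Fin 3, s z (j.succAbove k) * full s h j z v (j.succAbove k) =
          ∑ k : Fin 3, s z (j.succAbove k) * v k :=
        Finset.sum_congr rfl fun k _ => by rw [hfull2 v k]
      rw [dotProduct_sub, split (full s h j z v), hfull1, mul_div_cancel₀ _ hj, h9]
      ring
    have h8 := h7 (s z) hs _ h5
    unfold bw
    rw [h8, sub_add_cancel]
  refine ⟨?_, ?_, p3, p4⟩
  · intro x
    unfold bw
    rw [p3, add_sub_cancel_right]
    exact h6 (s z) hs x
  · intro v
    funext k
    have h8 := congrFun (p4 v) (j.succAbove k)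
    rw [hfull2] at h8
    exact h8

end Pool.Agent.H672.T6
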