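import Pool.Agent.H820.T6.Stm

set_option autoImplicit false

/-! # T6 EXP: expansion of an alternating real bilinear map -/

namespace Pool.Agent.H672.T6

open Matrix Complex ComplexConjugate Pool.Agent.H820.T6

/-- `X` as a real linear map -/
noncomputable def Xl : Z3 →ₗ[ℝ] M4 where
  toFun := X
  map_add' := by
    intro x y
    ext i j
    fin_cases i <;> fin_cases j <;> simp [X] <;> ring
  map_smul' := by
    intro t x
    ext i j
    fin_cases i <;> fin_cases j <;> simp [X]

theorem X_skew (x : Z3) : (X x)ᵀ = -X x := by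
  ext i j
  fin_cases i <;> fin_cases j <;> simp [X]

/-- basis vectors -/
noncomputable def e1 (k : Fin 3) : Z3 := Pi.single k 1

/-- basis vectors -/
noncomputable def e2 (k : Fin 3) : Z3 := Pi.single k I

theorem z_eq (z : Z3) : z = ∑ k, ((z k).re • e1 k + (z k).im • e2 k) := by
  funext j
  rw [Finset.sum_apply, Finset.sum_eq_single j]
  · simp [e1, e2, Complex.re_add_im]
  · intro k _ hk
    simp [e1, e2, Pi.single_eq_of_ne (Ne.symm hk)]
  · intro h
    exact absurd (Finset.mem_univ j) h

theorem key (x y u v : ℝ) (a b c d : ℂ) :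
    (x * u : ℂ) * a + (x * v : ℂ) * b + (y * u : ℂ) * c + (y * v : ℂ) * d =
      ((x + y * I) * (u + v * I)) * (1 / 4 * (a - d - I * b - I * c)) +
      ((x + y * I) * (u - v * I)) * (1 / 4 * (a + d + I * b - I * c)) +
      ((x - y * I) * (u + v * I)) * (1 / 4 * (a + d - I * b + I * c)) +
      ((x - y * I) * (u - v * I)) * (1 / 4 * (a - d + I * b + I * c)) := by
  linear_combination ((y * v : ℂ) * d + (x * v : ℂ) * b + (y * u : ℂ) * c) * Complex.I_sq

theorem t_exp : S_exp := by
  intro β hβ
  have anti : ∀ z w, X (β z w) = -X (β w z) := by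
    intro z w
    have h1 := hβ (z + w)
    simp only [map_add, LinearMap.add_apply] at h1
    rw [hβ z, hβ w, zero_add, add_zero] at h1
    have h2 : Xl (β z w) + Xl (β w z) = 0 := by
      rw [← map_add, add_comm, h1, map_zero]
    exact eq_neg_of_add_eq_zero_left h2
  have expand : ∀ z w, X (β z w) = ∑ k, ∑ m,
      (((z k).re * (w m).re) • X (β (e1 k) (e1 m)) + ((z k).re * (w m).im) • X (β (e1 k) (e2 m)) +
        ((z k).im * (w m).re) • X (β (e2 k) (e1 m)) +
        ((z k).im * (w m).im) • X (β (e2 k) (e2 m))) := by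
    intro z w
    have h1 : X (β z w) = Xl (β (∑ k, ((z k).re • e1 k + (z k).im • e2 k))
        (∑ m, ((w m).re • e1 m + (w m).im • e2 m))) := by
      rw [← z_eq z, ← z_eq w]
      rfl
    rw [h1, map_sum β, LinearMap.sum_apply, map_sum Xl]
    refine Finset.sum_congr rfl fun k _ => ?_
    rw [map_sum (β ((z k).re • e1 k + (z k).im • e2 k)), map_sum Xl]
    refine Finset.sum_congr rfl fun m _ => ?_
    simp only [map_add, map_smul, LinearMap.add_apply, LinearMap.smul_apply, smul_add, smul_smul]
    change (((w m).re * (z k).re) • X (β (e1 k) (e1 m)) +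
      ((w m).re * (z k).im) • X (β (e2 k) (e1 m))) +
      (((w m).im * (z k).re) • X (β (e1 k) (e2 m)) +
      ((w m).im * (z k).im) • X (β (e2 k) (e2 m))) = _
    rw [mul_comm (w m).re (z k).re, mul_comm (w m).re (z k).im, mul_comm (w m).im (z k).re,
      mul_comm (w m).im (z k).im]
    abel
  refine ⟨fun k m => (1 / 4 : ℂ) • (X (β (e1 k) (e1 m)) - X (β (e2 k) (e2 m)) -
      I • X (β (e1 k) (e2 m)) - I • X (β (e2 k) (e1 m))),
    fun k m => (1 / 4 : ℂ) • (X (β (e1 k) (e1 m)) + X (β (e2 k) (e2 m)) +
      I • X (β (e1 k) (e2 m)) - I • X (β (e2 k) (e1 m))),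
    fun k m => (1 / 4 : ℂ) • (X (β (e1 k) (e1 m)) - X (β (e2 k) (e2 m)) +
      I • X (β (e1 k) (e2 m)) + I • X (β (e2 k) (e1 m))), ?_, ?_, ?_, ?_, ?_⟩
  · intro k m
    simp only [transpose_smul, transpose_sub, transpose_add, X_skew]
    module
  · intro k m
    simp only [transpose_smul, transpose_sub, transpose_add, X_skew]
    module
  · intro k m
    simp only [transpose_smul, transpose_sub, transpose_add, X_skew]
    module
  · intro k m
    beta_reduce
    rw [anti (e1 m) (e1 k), anti (e2 m) (e2 k), anti (e1 m) (e2 k), anti (e2 m) (e1 k)]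
    module
  · intro z w
    rw [expand z w]
    unfold Bil
    refine Finset.sum_congr rfl fun k _ => Finset.sum_congr rfl fun m _ => ?_
    beta_reduce
    rw [anti (e1 m) (e1 k), anti (e2 m) (e2 k), anti (e1 m) (e2 k), anti (e2 m) (e1 k)]
    ext i j
    have hz : z k = (z k).re + (z k).im * I := (Complex.re_add_im _).symm
    have hw : w m = (w m).re + (w m).im * I := (Complex.re_add_im _).symm
    have hc : ∀ a : ℂ, conj a = (a.re : ℂ) - (a.im : ℂ) * I := by
      intro a
      apply Complex.ext <;> simp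
    have hz' := hc (z k)
    have hw' := hc (w m)
    rw [hz', hw']
    simp only [Matrix.add_apply, Matrix.sub_apply, Matrix.smul_apply, Matrix.neg_apply, smul_eq_mul,
      Complex.real_smul]
    have hk := key (z k).re (z k).im (w m).re (w m).im (X (β (e1 k) (e1 m)) i j)
      (X (β (e1 k) (e2 m)) i j) (X (β (e2 k) (e1 m)) i j) (X (β (e2 k) (e2 m)) i j)
    rw [← hz, ← hw] at hk
    push_cast
    rw [hk]
    ring

end Pool.Agent.H672.T6
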